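import Mathlib
import Pool.Agent.H715R2.CountableValues
import Pool.Agent.H905R2.OppD

/-! # MP_77d073_nt: Oppenheim's conjecture for forms with countably many small limit values

Let `n ≥ 3` and let `L₁, …, L_n` be linearly independent real linear forms whose product `F` is
bounded away from zero at the nonzero integer points.  Let `T > (n! / n ^ n) |det L|`, or more
generally let `T` be such that every product of `n` linear forms with the same absolute
determinant takes a value of absolute value `< T` at some nonzero integer point.  If the closure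
of the set of values `|F(x)| < T`, `x ∈ ℤ^n`, is countable, then there is `A ∈ SL(n, ℤ)` with
irreducible characteristic polynomial and real eigenvalues whose invariant planes are the
hyperplanes `L_i = 0`. -/

open Filter Topology

namespace Pool.Agent.Results.MP_77d073_nt.CountableValues

theorem result (n : ℕ) (hn : 3 ≤ n) (L : Fin n → Fin n → ℝ) (hL : LinearIndependent ℝ L)
    (hc : ∃ c : ℝ, 0 < c ∧ ∀ p : Fin n → ℤ, p ≠ 0 → c ≤ |∏ i, ∑ j, L i j * (p j : ℝ)|)
    (T : ℝ)
    (hT : (n.factorial : ℝ) * |(Matrix.of L).det| < (n : ℝ) ^ n * T ∨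
      ∀ h : Matrix (Fin n) (Fin n) ℝ, |h.det| = |(Matrix.of L).det| →
        ∃ x : Fin n → ℤ, x ≠ 0 ∧ |∏ i : Fin n, ∑ j : Fin n, h i j * (x j : ℝ)| < T)
    (hC : (closure {t : ℝ | ∃ x : Fin n → ℤ,
      |∏ i : Fin n, ∑ j : Fin n, L i j * (x j : ℝ)| = t ∧ t < T}).Countable) :
    ∃ A : Matrix (Fin n) (Fin n) ℤ,
        A.det = 1 ∧
        Irreducible (A.charpoly.map (Int.castRingHom ℚ)) ∧
        (∀ z : ℂ, Polynomial.aeval z A.charpoly = 0 → z.im = 0) ∧
        ∀ i : Fin n, ∀ x : Fin n → ℝ, ∑ j, L i j * x j = 0 →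
          ∑ j, L i j * ((A.map (Int.cast : ℤ → ℝ)).mulVec x) j = 0 := by
  rcases H715R2.countable_abs_values hn (Pool.Agent.H905R2.Opp.det_ne hL) T hT hC with h1 | h1
  · exact Pool.Agent.H905R2.Opp.opp_of_propInt (by omega) hL hc h1
  · exact absurd h1 (Pool.Agent.H905R2.Opp.not_small hc)

end Pool.Agent.Results.MP_77d073_nt.CountableValues
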