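import Mathlib
import Pool.Agent.H812R2.OppCommon

set_option autoImplicit false

/-! # MP_77d073_nt: the counterexamples to Oppenheim's conjecture are none or uncountably many

Let `n ≥ 3` and let `L₁, …, L_n` be linearly independent real linear forms with
`|L₁(p) ⋯ L_n(p)| ≥ ν > 0` at all nonzero integer points for which the conclusion of Oppenheim's
conjecture fails.  Then for every sequence `h 0, h 1, …` of systems of `n` real linear forms there is
a system `L'` with the same absolute determinant and the same lower bound `ν`, whose product takes at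
integer points only values in the closure of the values of `L₁ ⋯ L_n` at integer points, for which
the conclusion of Oppenheim's conjecture fails as well, and whose product is not equivalent, even up
to a real factor, to the product of any of the systems `h k`. -/

namespace Pool.Agent.Results.MP_77d073_nt.NoneOrUncountable

/-- The conclusion of Oppenheim's conjecture for the system of forms `L`: there is an integer matrix
`A` with determinant one, characteristic polynomial irreducible over `ℚ` and only real eigenvalues,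
which maps each of the hyperplanes `L_i = 0` into itself. -/
def Conclusion {n : ℕ} (L : Fin n → Fin n → ℝ) : Prop :=
  ∃ A : Matrix (Fin n) (Fin n) ℤ,
    A.det = 1 ∧
    Irreducible (A.charpoly.map (Int.castRingHom ℚ)) ∧
    (∀ z : ℂ, Polynomial.aeval z A.charpoly = 0 → z.im = 0) ∧
    ∀ i : Fin n, ∀ x : Fin n → ℝ, ∑ j, L i j * x j = 0 →
      ∑ j, L i j * ((A.map (Int.cast : ℤ → ℝ)).mulVec x) j = 0

open Pool.Agent.H905R2.Opp in
theorem result (n : ℕ) (hn : 3 ≤ n) (L : Fin n → Fin n → ℝ) (hL : LinearIndependent ℝ L)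
    (ν : ℝ) (hν : 0 < ν)
    (hLν : ∀ p : Fin n → ℤ, p ≠ 0 → ν ≤ |∏ i, ∑ j, L i j * (p j : ℝ)|)
    (hno : ¬ Conclusion L) (h : ℕ → Fin n → Fin n → ℝ) :
    ∃ L' : Fin n → Fin n → ℝ, LinearIndependent ℝ L' ∧
      |(Matrix.of L').det| = |(Matrix.of L).det| ∧
      (∀ p : Fin n → ℤ, p ≠ 0 → ν ≤ |∏ i, ∑ j, L' i j * (p j : ℝ)|) ∧
      (∀ p : Fin n → ℤ, (∏ i, ∑ j, L' i j * (p j : ℝ)) ∈
        closure {t : ℝ | ∃ y : Fin n → ℤ, t = ∏ i, ∑ j, L i j * (y j : ℝ)}) ∧
      ¬ Conclusion L' ∧
      ∀ (k : ℕ) (γ : Matrix (Fin n) (Fin n) ℤ) (c : ℝ), |γ.det| = 1 →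
        ∃ p : Fin n → ℤ, (∏ i, ∑ j, L' i j * (p j : ℝ)) ≠
          c * ∏ i, ∑ j, h k i j * ((γ.mulVec p) j : ℝ) := by
  classical
  -- the systems with a given invariant matrix
  let Q : Matrix (Fin n) (Fin n) ℤ → (Fin n → Fin n → ℝ) → Prop := fun A E =>
    LinearIndependent ℝ E ∧ ∀ i : Fin n, ∀ x : Fin n → ℝ, ∑ j, E i j * x j = 0 →
      ∑ j, E i j * ((A.map (Int.cast : ℤ → ℝ)).mulVec x) j = 0
  let EE : Matrix (Fin n) (Fin n) ℤ → (Fin n → Fin n → ℝ) := fun A =>
    if hA : ∃ E, Q A E then Classical.choose hA else 0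
  have hEE : ∀ A E, Q A E → Q A (EE A) := by
    intro A E hE
    have hA : ∃ E, Q A E := ⟨E, hE⟩
    change Q A (if hA : ∃ E, Q A E then Classical.choose hA else 0)
    rw [dif_pos hA]
    exact Classical.choose_spec hA
  have : Encodable (Matrix (Fin n) (Fin n) ℤ) :=
    inferInstanceAs (Encodable (Fin n → Fin n → ℤ))
  let h' : ℕ → Matrix (Fin n) (Fin n) ℝ := fun k =>
    if k % 2 = 0 then Matrix.of (h (k / 2)) else
      match (Encodable.decode (k / 2) : Option (Matrix (Fin n) (Fin n) ℤ)) with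
      | some A => Matrix.of (EE A)
      | none => 0
  have hg : (Matrix.of L).det ≠ 0 := det_ne hL
  have hint : ¬ H715R2.PropInt (Matrix.of L) := fun hP =>
    hno (opp_of_propInt (by omega) hL ⟨ν, hν, hLν⟩ hP)
  obtain ⟨g', hmem, h1, h2, h3⟩ := H715R2.uncountable_family hn hg hν hLν hint h'
  have hdet := H715R2.abs_det_closure hmem
  have hg' : g'.det ≠ 0 := by
    intro h0
    rw [h0, abs_zero] at hdet
    exact hg (abs_eq_zero.1 hdet.symm)
  have hLI : LinearIndependent ℝ (fun i j => g' i j : Fin n → Fin n → ℝ) := by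
    have hu : IsUnit g' := (Matrix.isUnit_iff_isUnit_det _).2 (isUnit_iff_ne_zero.2 hg')
    exact (Matrix.linearIndependent_rows_iff_isUnit (A := g')).2 hu
  refine ⟨fun i j => g' i j, hLI, hdet, h1, fun p => ?_, ?_, fun k γ c hγ => ?_⟩
  · have h4 := H715R2.mem_VV_of_mem_closure hmem p
    refine closure_mono ?_ h4
    rintro _ ⟨y, rfl⟩
    exact ⟨y, rfl⟩
  · rintro ⟨A, -, hirr, -, hinv⟩
    have hQ := hEE A (fun i j => g' i j) ⟨hLI, hinv⟩
    obtain ⟨c, hc⟩ := Pool.Agent.H812R2.Opp.prop_of_common A hirr (fun i j => g' i j) (EE A) hLI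
      hQ.1 hinv hQ.2
    obtain ⟨x, hx⟩ := h3 (2 * Encodable.encode A + 1) 1 c (by rw [Matrix.det_one]; exact isUnit_one)
    apply hx
    have h5 : h' (2 * Encodable.encode A + 1) = Matrix.of (EE A) := by
      change (if (2 * Encodable.encode A + 1) % 2 = 0 then _ else _) = _
      rw [if_neg (by omega), show (2 * Encodable.encode A + 1) / 2 = Encodable.encode A by omega,
        Encodable.encodek]
    rw [h5, Matrix.one_mulVec]
    exact hc (fun j => (x j : ℝ))
  · obtain ⟨x, hx⟩ := h3 (2 * k) γ c (Int.isUnit_iff_abs_eq.2 hγ)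
    refine ⟨x, ?_⟩
    have h5 : h' (2 * k) = Matrix.of (h k) := by
      change (if (2 * k) % 2 = 0 then _ else _) = _
      rw [if_pos (by omega), show 2 * k / 2 = k by omega]
    rw [h5] at hx
    exact hx

end Pool.Agent.Results.MP_77d073_nt.NoneOrUncountable
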