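import Mathlib
import Pool.Agent.H715R2.LimitAlg
import Pool.Agent.H905R2.OppD

/-! # MP_77d073_nt: Oppenheim's conjecture when one form is algebraic (also only in a limit)

Let `n ≥ 3` and let `L₁, …, L_n` be linearly independent real linear forms whose product is
bounded away from zero at the nonzero integer points.  Suppose that a limit `h` of matrices
`diag(a_k) L γ_k` (with `|∏ a_k| = 1` and integer matrices `γ_k` with `|det γ_k| = 1`; for instance
`h = L`) has one row which, up to scaling, has coefficients in a real number field of degree at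
most `n`.  Then there is `A ∈ SL(n, ℤ)` with irreducible characteristic polynomial and real
eigenvalues whose invariant planes are the hyperplanes `L_i = 0`. -/

open Filter Topology

namespace Pool.Agent.Results.MP_77d073_nt.OneAlgebraicForm

theorem result (n : ℕ) (hn : 3 ≤ n) (L : Fin n → Fin n → ℝ) (hL : LinearIndependent ℝ L)
    (hc : ∃ c : ℝ, 0 < c ∧ ∀ p : Fin n → ℤ, p ≠ 0 → c ≤ |∏ i, ∑ j, L i j * (p j : ℝ)|)
    (h : Matrix (Fin n) (Fin n) ℝ) (a : ℕ → Fin n → ℝ) (γ : ℕ → Matrix (Fin n) (Fin n) ℤ)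
    (ha : ∀ k, |∏ i, a k i| = 1) (hγ : ∀ k, |(γ k).det| = 1)
    (hlim : Tendsto (fun k => Matrix.diagonal (a k) * Matrix.of L *
      (γ k).map (Int.cast : ℤ → ℝ)) atTop (𝓝 h))
    (i₀ : Fin n) (s : ℝ) (hs : s ≠ 0) (K : IntermediateField ℚ ℝ) (hfin : FiniteDimensional ℚ K)
    (hK : Module.finrank ℚ K ≤ n) (hmem : ∀ j, s * h i₀ j ∈ K) :
    ∃ A : Matrix (Fin n) (Fin n) ℤ,
        A.det = 1 ∧
        Irreducible (A.charpoly.map (Int.castRingHom ℚ)) ∧
        (∀ z : ℂ, Polynomial.aeval z A.charpoly = 0 → z.im = 0) ∧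
        ∀ i : Fin n, ∀ x : Fin n → ℝ, ∑ j, L i j * x j = 0 →
          ∑ j, L i j * ((A.map (Int.cast : ℤ → ℝ)).mulVec x) j = 0 := by
  rcases H715R2.limit_alg' hn (Pool.Agent.H905R2.Opp.det_ne hL) a γ ha hγ hlim i₀ s hs K hK hmem
    with h1 | ⟨h1, -⟩
  · exact Pool.Agent.H905R2.Opp.opp_of_propInt (by omega) hL hc h1
  · exact absurd h1 (Pool.Agent.H905R2.Opp.not_small hc)

end Pool.Agent.Results.MP_77d073_nt.OneAlgebraicForm
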